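import Mathlib
import Pool.Agent.H28.MS

set_option autoImplicit false

namespace Pool.Agent.Results.MP_38d282_an.Mult

open Polynomial Finset

/-- only real zeros (the zero polynomial counts) -/
def RealRooted (f : ℝ[X]) : Prop := f = 0 ∨ ∀ z : ℂ, aeval z f = 0 → z.im = 0

/-- multiplier sequence -/
def IsMS (γ : ℕ → ℝ) : Prop :=
  ∀ (n : ℕ) (a : ℕ → ℝ), RealRooted (∑ k ∈ range (n + 1), C (a k) * X ^ k) →
    RealRooted (∑ k ∈ range (n + 1), C (γ k * a k) * X ^ k)

section
open Filter Topology MeasureTheory Real Pool.Agent.H28 Pool.Agent.H28.MS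

noncomputable def ψ (M : ℝ) (k : ℕ) (t : ℝ) : ℝ :=
  |(1 - t) * exp (1 - t)| * min M (1 / |1 - t|) * (t * exp (1 - t)) ^ k / 2

lemma ψ_eq (M : ℝ) (k : ℕ) (t : ℝ) (ht : t ≠ 1) :
    ψ M k t = min (M * |1 - t|) 1 * (exp (1 - t) * (t * exp (1 - t)) ^ k / 2) := by
  have : 0 < |1 - t| := abs_pos.2 (sub_ne_zero.2 ht.symm)
  have e := min_mul_of_nonneg M (1 / |1 - t|) this.le
  rw [one_div_mul_cancel this.ne'] at e
  rw [ψ, abs_mul, abs_of_pos (exp_pos _), ← e]; ring

lemma gam (k : ℕ) : ∫ t in Set.Ioi (0 : ℝ), exp (1 - t) * (t * exp (1 - t)) ^ k / 2 =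
    exp 1 ^ (k + 1) / 2 * (k.factorial / (k + 1) ^ (k + 1)) := by
  have := integral_rpow_mul_exp_neg_mul_Ioi (a := (k + 1 : ℕ)) (r := k + 1) (by positivity)
    (by positivity)
  rw [rpow_natCast, Nat.cast_add_one, Gamma_nat_eq_factorial, add_sub_cancel_right, one_div, inv_pow,
    ← div_eq_inv_mul] at this
  rw [← this, ← integral_const_mul]
  refine integral_congr_ae (Eventually.of_forall fun t => ?_)
  simp only [rpow_natCast]
  rw [show -((k + 1) * t) = (k + 1 : ℕ) * -t by push_cast; ring, exp_nat_mul, sub_eq_add_neg, exp_add]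
  ring

lemma gam_int (k : ℕ) :
    IntegrableOn (fun t => exp (1 - t) * (t * exp (1 - t)) ^ k / 2) (Set.Ioi (0 : ℝ)) :=
  .of_integral_ne_zero (by rw [gam]; positivity)

lemma ae1 : ∀ᵐ t ∂(volume.restrict (Set.Ioi (0 : ℝ))), 0 < t ∧ t ≠ 1 :=
  (ae_restrict_mem measurableSet_Ioi).and (ae_restrict_of_ae (Measure.ae_ne _ _))

lemma ψ_bd (M : ℝ) (hM : 0 ≤ M) (k : ℕ) : ∀ᵐ t ∂(volume.restrict (Set.Ioi (0 : ℝ))),
    ‖ψ M k t‖ ≤ exp (1 - t) * (t * exp (1 - t)) ^ k / 2 := ae1.mono fun t ⟨h0, h1⟩ => by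
  rw [ψ_eq M k t h1, Real.norm_of_nonneg (by positivity)]
  exact mul_le_of_le_one_left (by positivity) (min_le_right _ _)

lemma ψ_meas (M : ℝ) (k : ℕ) : Measurable (ψ M k) := by unfold ψ; fun_prop

lemma step (M : ℝ) (hM : 0 < M) : MS.MS fun k =>
    (∫ t in Set.Ioi (0 : ℝ), ψ M k t) / (2 * k + 1).factorial * k.factorial := by
  have hd : ∀ t : ℝ, HasDerivAt (fun t => t * exp (1 - t)) ((1 - t) * exp (1 - t)) t := fun t =>
    ((hasDerivAt_id t).mul ((hasDerivAt_id t).const_sub 1).exp).congr_deriv (by simp; ring)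
  have ct : Continuous fun t : ℝ => t * exp (1 - t) := by fun_prop
  have lt : ∀ t : ℝ, 0 < t → t ≠ 1 → t * exp (1 - t) ∈ Set.Ioo (0 : ℝ) 1 := fun t h0 h1 =>
    ⟨by positivity, by
      have := add_one_lt_exp (sub_ne_zero.2 h1)
      rw [show 1 - t = -(t - 1) by ring, exp_neg, ← div_eq_mul_inv, div_lt_one (exp_pos _)]
      linarith⟩
  have m1 : StrictMonoOn (fun t : ℝ => t * exp (1 - t)) (Set.Ioo 0 1) :=
    strictMonoOn_of_deriv_pos (convex_Ioo 0 1) ct.continuousOn fun t ht => by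
      rw [interior_Ioo] at ht; rw [(hd t).deriv]; exact mul_pos (sub_pos.2 ht.2) (exp_pos _)
  have m2 : StrictAntiOn (fun t : ℝ => t * exp (1 - t)) (Set.Ioi 1) :=
    strictAntiOn_of_deriv_neg (convex_Ioi 1) ct.continuousOn fun t ht => by
      rw [interior_Ioi] at ht; rw [(hd t).deriv]
      exact mul_neg_of_neg_of_pos (sub_neg.2 ht) (exp_pos _)
  obtain ⟨h₁, a1, a2, a3, a4⟩ := branch (Set.Ioo 0 1) measurableSet_Ioo _ _
    (fun t => min M (1 / |1 - t|)) M hM.le (fun t _ => hd t) m1.injOn (Set.Subset.antisymm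
      (by rintro _ ⟨t, ht, rfl⟩; exact lt t ht.1 ht.2.ne)
      (by simpa using intermediate_value_Ioo zero_le_one ct.continuousOn))
    (fun t _ => ⟨by positivity, min_le_left _ _⟩) fun x hx y hy h => min_le_min le_rfl (by
      rw [abs_of_pos (sub_pos.2 hx.2), abs_of_pos (sub_pos.2 hy.2)]
      exact one_div_le_one_div_of_le (sub_pos.2 hy.2) (by linarith [(m1.le_iff_le hx hy).1 h]))
  obtain ⟨h₂, b1, b2, b3, b4⟩ := branch (Set.Ioi 1) measurableSet_Ioi _ _
    (fun t => min M (1 / |1 - t|)) M hM.le (fun t _ => hd t) m2.injOn (Set.Subset.antisymm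
      (by rintro _ ⟨t, ht : 1 < t, rfl⟩; exact lt t (by linarith) ht.ne')
      (isPreconnected_Ioi.intermediate_value_Ioo (l₁ := atTop) (l₂ := 𝓝[>] 1)
        (le_principal_iff.2 (Ioi_mem_atTop 1)) inf_le_right ct.continuousOn
        (by simpa [sub_eq_add_neg, exp_add, mul_left_comm] using
          (tendsto_pow_mul_exp_neg_atTop_nhds_zero 1).const_mul (exp 1))
        (tendsto_nhdsWithin_of_tendsto_nhds (ct.tendsto' _ _ (by simp)))))
    (fun t _ => ⟨by positivity, min_le_left _ _⟩) fun x (hx : 1 < x) y (hy : 1 < y) h =>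
      min_le_min le_rfl (by
        rw [abs_of_neg (sub_neg.2 hx), abs_of_neg (sub_neg.2 hy)]
        exact one_div_le_one_div_of_le (by linarith) (by linarith [(m2.le_iff_ge hx hy).1 h]))
  obtain ⟨p, h1, h2, -⟩ := Polya.polya (fun w => h₁ w + h₂ w) (a1.add b1) (add_nonneg a2 b2)
    (by simp only [a3, b3]; positivity)
  refine Schur.ms_of_approx _ p h1 fun k => (h2 k).trans (le_of_eq (congrArg 𝓝 ?_))
  have i0 : IntegrableOn (ψ M k) (Set.Ioi 0) :=
    (gam_int k).mono' (ψ_meas M k).aestronglyMeasurable (ψ_bd M hM.le k)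
  have ii : ∀ h : ℝ → ℝ, MonotoneOn h (Set.Icc 0 1) →
      IntervalIntegrable (fun w => h w * w ^ (2 * k + 1)) volume 0 1 := fun h hh =>
    (MonotoneOn.intervalIntegrable (by rwa [Set.uIcc_of_le zero_le_one])).mul_continuousOn
      (by fun_prop)
  rw [mul_div_cancel_right₀ _ (by positivity), ← Set.Ioc_union_Ioi_eq_Ioi zero_le_one,
    setIntegral_union Set.Ioc_disjoint_Ioi_same measurableSet_Ioi
      (i0.mono_set Set.Ioc_subset_Ioi_self) (i0.mono_set (Set.Ioi_subset_Ioi zero_le_one)),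
    integral_Ioc_eq_integral_Ioo]
  simp only [add_mul]
  rw [intervalIntegral.integral_add (ii _ a1) (ii _ b1), a4, b4]; rfl

lemma lim (k : ℕ) : Tendsto (fun n : ℕ => ∫ t in Set.Ioi (0 : ℝ), ψ (n + 1) k t) atTop
    (𝓝 (exp 1 ^ (k + 1) / 2 * (k.factorial / (k + 1) ^ (k + 1)))) := by
  rw [← gam]
  refine tendsto_integral_of_dominated_convergence _ (fun n => (ψ_meas _ k).aestronglyMeasurable)
    (gam_int k) (fun n => ψ_bd _ (by positivity) k) (ae1.mono fun t ⟨h0, h1⟩ => ?_)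
  have : 0 < |1 - t| := abs_pos.2 (sub_ne_zero.2 h1.symm)
  refine tendsto_const_nhds.congr' ?_
  filter_upwards [(tendsto_natCast_atTop_atTop.atTop_mul_const this).eventually_ge_atTop 1] with n hn
  rw [ψ_eq _ k t h1, min_eq_right (by linarith), one_mul]

end

open Pool.Agent.H28.MS in
theorem result : IsMS fun k => 1 / ((k + 1) ^ (k + 1) * k.factorial) := by
  intro n a ha
  refine ((MS.lim _ _ (fun n => step (n + 1) (by positivity)) fun k => ((lim k).div_const _).mul_const _).mul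
    ((MS_lin (2 / Real.exp 1) (4 / Real.exp 1) (1 / Real.exp 1) (by positivity) (by positivity)
      (by positivity)).mul MS_central)) _ _ ha fun k => ?_
  simp only [finset_sum_coeff, coeff_C_mul_X_pow, sum_ite_eq, mul_ite, mul_zero]
  congr 2
  have e : (k.centralBinom : ℝ) * k.factorial * k.factorial = (2 * k).factorial := by
    have := Nat.choose_mul_factorial_mul_factorial (show k ≤ 2 * k by omega)
    rw [show 2 * k - k = k by omega, ← Nat.centralBinom_eq_two_mul_choose] at this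
    exact_mod_cast this
  rw [Nat.factorial_succ, one_div (Real.exp 1), inv_pow]; push_cast; rw [← e]
  have := Nat.centralBinom_pos k
  field_simp; ring

end Pool.Agent.Results.MP_38d282_an.Mult
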